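import Pool.Agent.Helper68.LM2.St

/-!
# Project LM2, module HW: the maximal function on the line, weak type (1,1)
-/

set_option autoImplicit false

open MeasureTheory Set Filter Topology
open scoped ENNReal RealInnerProductSpace

namespace Pool.Agent.Helper9.LM2

open Pool.Agent.Helper68.LM2 Pool.Agent.Helper68.LM

theorem avg_shift (h : ℝ → ℝ≥0∞) (R x : ℝ) :
    ∫⁻ s in Icc (-R) R, h (x + s) = ∫⁻ z in Metric.closedBall x R, h z := by
  have hm1 : MeasurableSet (Icc (-R) R) := measurableSet_Icc
  have hm2 : MeasurableSet (Metric.closedBall x R) := Metric.isClosed_closedBall.measurableSet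
  rw [← lintegral_indicator hm1, ← lintegral_indicator hm2]
  rw [← lintegral_add_left_eq_self (μ := volume) ((Metric.closedBall x R).indicator h) x]
  refine lintegral_congr fun s => ?_
  have h2 : s ∈ Icc (-R) R ↔ x + s ∈ Metric.closedBall x R := by
    rw [Metric.mem_closedBall, Real.dist_eq, add_sub_cancel_left, abs_le]
    exact Iff.rfl
  by_cases hs : s ∈ Icc (-R) R
  · rw [indicator_of_mem hs, indicator_of_mem (h2.1 hs)]
  · rw [indicator_of_notMem hs, indicator_of_notMem (fun h => hs (h2.2 h))]

theorem hHW : StHW := by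
  intro f hfm lam hlam
  set I : ℝ≥0∞ := ∫⁻ x, f x with hI
  by_cases hIfin : I = ∞
  · rw [hIfin, ENNReal.mul_top]
    · exact le_top
    · have : 0 < ENNReal.ofReal (10 / lam) := ENNReal.ofReal_pos.2 (by positivity)
      exact this.ne'
  set A : Set ℝ := {x | ENNReal.ofReal lam < Mx f x} with hA
  -- choice of a radius
  have hch : ∀ x : ℝ, ∃ k : ℤ, x ∈ A → ENNReal.ofReal lam <
      ENNReal.ofReal ((2 : ℝ) ^ (-k)) *
        ∫⁻ z in Metric.closedBall x ((2 : ℝ) ^ k), f z := by
    intro x
    by_cases hx : x ∈ A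
    · have hx' : ENNReal.ofReal lam < ⨆ i : ℤ, ENNReal.ofReal ((2 : ℝ) ^ (-i)) *
          ∫⁻ s in Icc (-((2 : ℝ) ^ i)) ((2 : ℝ) ^ i), f (x + s) := hx
      obtain ⟨k, hk⟩ := lt_iSup_iff.1 hx'
      refine ⟨k, fun _ => ?_⟩
      rw [← avg_shift f ((2 : ℝ) ^ k) x]
      exact hk
    · exact ⟨0, fun h => absurd h hx⟩
  choose k hk using hch
  set r : ℝ → ℝ := fun x => (2 : ℝ) ^ (k x) with hr
  have hr0 : ∀ x, 0 < r x := fun x => by rw [hr]; positivity
  set J : ℝ → ℝ≥0∞ := fun x => ∫⁻ z in Metric.closedBall x (r x), f z with hJ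
  have hJI : ∀ x, J x ≤ I := fun x => setLIntegral_le_lintegral _ _
  -- the basic inequality
  have hbas : ∀ x ∈ A, ENNReal.ofReal (r x) ≤ ENNReal.ofReal (1 / lam) * J x := by
    intro x hx
    have h1 := (hk x hx).le
    have hc0 : 0 < r x := hr0 x
    have hinv : (2 : ℝ) ^ (-(k x)) = (r x)⁻¹ := by rw [hr]; simp only [zpow_neg]
    rw [hinv] at h1
    have h2 : ENNReal.ofReal (r x) = ENNReal.ofReal (1 / lam * r x) * ENNReal.ofReal lam := by
      rw [← ENNReal.ofReal_mul (by positivity)]
      congr 1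
      field_simp
    rw [h2]
    calc ENNReal.ofReal (1 / lam * r x) * ENNReal.ofReal lam
        ≤ ENNReal.ofReal (1 / lam * r x) * (ENNReal.ofReal ((r x)⁻¹) * J x) := by gcongr
      _ = (ENNReal.ofReal (1 / lam) * (ENNReal.ofReal (r x) * ENNReal.ofReal ((r x)⁻¹))) * J x := by
          rw [ENNReal.ofReal_mul (by positivity)]
          ring
      _ = ENNReal.ofReal (1 / lam) * J x := by
          rw [← ENNReal.ofReal_mul hc0.le, mul_inv_cancel₀ hc0.ne', ENNReal.ofReal_one, mul_one]
  -- boundedness of the radii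
  have hbd : ∀ x ∈ A, r x ≤ 1 / lam * I.toReal := by
    intro x hx
    have h1 : ENNReal.ofReal (r x) ≤ ENNReal.ofReal (1 / lam) * I :=
      (hbas x hx).trans (by gcongr; exact hJI x)
    rw [← ENNReal.ofReal_toReal hIfin, ← ENNReal.ofReal_mul (by positivity),
      ENNReal.ofReal_le_ofReal_iff (by positivity)] at h1
    exact h1
  obtain ⟨u, huA, hdis, hcov⟩ := Vitali.exists_disjoint_subfamily_covering_enlargement_closedBall
    A (fun x : ℝ => x) r _ hbd 5 (by norm_num)
  have hucount : u.Countable := by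
    refine hdis.countable_of_nonempty_interior fun x _ => ?_
    refine ⟨x, ?_⟩
    exact Metric.ball_subset_interior_closedBall (Metric.mem_ball_self (hr0 x))
  have hsub : A ⊆ ⋃ b ∈ u, Metric.closedBall b (5 * r b) := by
    intro x hx
    obtain ⟨b, hb, hxb⟩ := hcov x hx
    exact mem_biUnion hb (hxb (Metric.mem_closedBall_self (hr0 x).le))
  have hball : ∀ b ∈ u, volume (Metric.closedBall b (5 * r b)) ≤
      ENNReal.ofReal (10 / lam) * J b := by
    intro b hb
    rw [Real.volume_closedBall]
    calc ENNReal.ofReal (2 * (5 * r b))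
        = ENNReal.ofReal 10 * ENNReal.ofReal (r b) := by
          rw [← ENNReal.ofReal_mul (by positivity)]
          congr 1
          ring
      _ ≤ ENNReal.ofReal 10 * (ENNReal.ofReal (1 / lam) * J b) := by
          gcongr
          exact hbas b (huA hb)
      _ = ENNReal.ofReal (10 / lam) * J b := by
          rw [← mul_assoc, ← ENNReal.ofReal_mul (by positivity), mul_one_div]
  set μ' : Measure ℝ := volume.withDensity f with hμ'
  have hJμ : ∀ b, J b = μ' (Metric.closedBall b (r b)) := fun b =>
    (withDensity_apply f Metric.isClosed_closedBall.measurableSet).symm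
  have hsum : ∑' b : u, J b ≤ I := by
    calc ∑' b : u, J b = ∑' b : u, μ' (Metric.closedBall (b : ℝ) (r b)) :=
          tsum_congr fun b => hJμ b
      _ = μ' (⋃ b ∈ u, Metric.closedBall b (r b)) :=
          (measure_biUnion hucount hdis
            (fun b _ => Metric.isClosed_closedBall.measurableSet)).symm
      _ ≤ μ' univ := measure_mono (subset_univ _)
      _ = I := by rw [hμ', withDensity_apply f MeasurableSet.univ, Measure.restrict_univ]
  calc volume A ≤ volume (⋃ b ∈ u, Metric.closedBall b (5 * r b)) := measure_mono hsub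
    _ ≤ ∑' b : u, volume (Metric.closedBall (b : ℝ) (5 * r b)) :=
        measure_biUnion_le volume hucount _
    _ ≤ ∑' b : u, ENNReal.ofReal (10 / lam) * J b :=
        ENNReal.tsum_le_tsum fun b => hball b b.2
    _ = ENNReal.ofReal (10 / lam) * ∑' b : u, J b := ENNReal.tsum_mul_left
    _ ≤ ENNReal.ofReal (10 / lam) * I := by
        gcongr

end Pool.Agent.Helper9.LM2
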